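import Pool.Agent.helper84.NR.SpecW

/-!
# Project NU (MP_133bfc_co, Theorem U): spec

`FNU_stmt`: polyhedral map with `χ ≥ -1`, a face at `x` meets a face at `y`. Then there is a nonrevisiting path
(all faces!), or three faces `A ∋ x`, `B ∋ y`, `g ∌ x, y` meeting pairwise, without a common vertex, and a neighbour
`s` of `x` on `A` on no face with `y`, a neighbour `t` of `y` on `B` on no face with `x`. It contains
NeighboursOnFaces (helper84). Row `XX`: file `Pool/Agent/<seat>/NU/XX.lean`, `import Pool.Agent.helper81.NU.Spec`,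
`namespace Pool.Agent.helper81.NU`, `open Pool.Agent.helper84.NR`, `open scoped Classical`, `open Finset`.
Everything of the project NR is available as theorems `h_IDX`, `h_EDG`, `h_PCF`, `h_PCN`, ..; the statements of SpecW (BIP,
EXX, RTA, FRM, TOPW) are hypotheses.
-/

set_option autoImplicit false

namespace Pool.Agent.helper81.NU

open Pool.Agent.helper84.NR
open scoped Classical
open Finset

/-- The face `g`, containing neither `x` nor `y`, meets `A` and meets `B`, and the three faces have no common vertex. -/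
def Tri {V F : Type} (M : PMap V F) (x y : V) (A B g : F) : Prop :=
  ¬ OnV M.toCyc g x ∧ ¬ OnV M.toCyc g y ∧ (∃ u, OnV M.toCyc A u ∧ OnV M.toCyc g u) ∧
    (∃ v, OnV M.toCyc B v ∧ OnV M.toCyc g v) ∧
    ∀ z, ¬ (OnV M.toCyc A z ∧ OnV M.toCyc B z ∧ OnV M.toCyc g z)

/-- Uses h_IDX. A vertex of a cycle has only two neighbours on it: with `bd f k0 = p`, an edge `s(p, q)` of `f` has
`q = bd f (k0 + 1)` or `q = bd f (k0 + len f - 1)`. -/
def N2_stmt : Prop := ∀ (V F : Type) (M : Cyc V F) (f : F) (p q1 q2 q3 : V),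
  OnE M f s(p, q1) → OnE M f s(p, q2) → OnE M f s(p, q3) → q1 = q2 ∨ q1 = q3 ∨ q2 = q3

/-- Hyp.: N2 (h_EDG). The path of CA1 (copy Pool/Agent/helper45/NRW/CA1.lean): `q j = a j` (`j ≤ m`), `q j = b (m + m' - j)` (`j ≥ m`). Faces containing `x` or `y`: as
there. Let `f` contain neither, `q i, q j ∈ f`, `i < j`; so `i ≥ 1`, `j < m + m'`. If `j ≤ m`: `poly` for `A`, `f`: `s(q i, q j)` is an edge of both; N2 at `a i`
(`a (i-1)`, `a (i+1)`, `a j`) gives `j = i + 1`. If `m ≤ i`: the same with `B`. If `i < m < j`: then `2 ≤ m`, `2 ≤ m'`; if no vertex `z` is on `A`, `B` and `f`, `f` is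
the face `g`. If there is one: `a i ≠ z` (`a i` is on no face at `y`), `poly`: `s(a i, z)` is an edge of `A` and of `f`; N2: `z = a (i-1)` or `z = a (i+1)`, and `z` is on a face at
`y`, so `z = a m = v`, `i + 1 = m`, and this edge is `s(q i, q m)`. In the same way `j = m + 1` and `s(v, q j)` is on `f`. -/
def CA1U_stmt : Prop := ∀ (V F : Type) (M : PMap V F) (x y : V) (A B : F) (v : V) (m m' : ℕ)
  (a b : ℕ → V), (∀ f, ¬ (OnV M.toCyc f x ∧ OnV M.toCyc f y)) → OnV M.toCyc A x → OnV M.toCyc B y →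
  Acc M x y A v m a → Acc M y x B v m' b →
  NRPath M.toCyc x y ∨ ((∃ g, Tri M x y A B g) ∧ 2 ≤ m ∧ 2 ≤ m')

/-- Hyp.: N2 (h_EDG). The path of CA2 (copy Pool/Agent/helper34/NRW/CA2.lean): `q j = a j` (`j ≤ m`), `q (m + 1 + j) = b (m' - j)`. Faces containing `x` or `y`: as there. Let `f`
contain neither, `q i, q j ∈ f`, `i < j`; so `i ≥ 1`, `j < m + 1 + m'`. If `j ≤ m + 1` (all on `A`, `q (m+1) = w`): `poly` and N2 at `q i` (`q (i-1)`, `q (i+1)`, `q j`) give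
`j = i + 1`, the edge is on `f`. If `m ≤ i` (all on `B`): the same. If `i < m`, `m + 1 < j`: `2 ≤ m`, `2 ≤ m'`, and no `z` is on `A`, `B`, `f`: `s(a i, z)` would be an edge of `A`, so
`z = a (i-1)` or `a (i+1)`, on a face at `y`, so `z = a m = v`; in the same way `z = b m' = w`; but `v ≠ w`. So `f` is the face `g`. -/
def CA2U_stmt : Prop := ∀ (V F : Type) (M : PMap V F) (x y : V) (A B : F) (v w : V) (m m' : ℕ)
  (a b : ℕ → V), (∀ f, ¬ (OnV M.toCyc f x ∧ OnV M.toCyc f y)) → OnV M.toCyc A x → OnV M.toCyc B y →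
  OnE M.toCyc A s(v, w) → OnE M.toCyc B s(v, w) → ¬ Adj M.toCyc x w → ¬ Adj M.toCyc v y →
  Acc M x y A v m a → Acc M y x B w m' b →
  NRPath M.toCyc x y ∨ ((∃ g, Tri M x y A B g) ∧ 2 ≤ m ∧ 2 ≤ m')

/-- Hyp.: CA1U, CA2U (h_RTA, h_EDG). As RT (copy Pool/Agent/helper24/NRW/RT.lean). If `2 ≤ m`: `s = a 1` is adjacent to `x`, on `A`, and on no face at `y` (`1 < m`); the same
for `t = b 1`. (With an access path of one edge, `m = 1`, CA1U gives a nonrevisiting path.) -/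
def RTU_stmt : Prop := ∀ (V F : Type) (M : PMap V F) (x y : V) (A B : F),
  (∀ f, ¬ (OnV M.toCyc f x ∧ OnV M.toCyc f y)) → OnV M.toCyc A x → OnV M.toCyc B y →
  ex M x y A B → ex M y x B A →
  NRPath M.toCyc x y ∨ ((∃ g, Tri M x y A B g) ∧
    (∃ s, Adj M.toCyc x s ∧ OnV M.toCyc A s ∧ ¬ ∃ B', OnV M.toCyc B' y ∧ OnV M.toCyc B' s) ∧
    ∃ t, Adj M.toCyc y t ∧ OnV M.toCyc B t ∧ ¬ ∃ A', OnV M.toCyc A' x ∧ OnV M.toCyc A' t)

/-- Uses h_BIP, h_EXX, h_FRM, h_TOPW. If there is no such pair, the proof of GEW (copy Pool/Agent/helper59/NRW/GEW.lean; the disjointness is now the assumption) gives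
`|XM M x y| + |XM M y x| + 8 ≤ |MPs|` and the end of FINW (copy Pool/Agent/helper73/NRW/FINW.lean) gives `χ ≤ -2`. -/
def EXP_stmt : Prop := ∀ (V F : Type) [Fintype V] [Fintype F] (M : PMap V F), -1 ≤ chi M.toCyc →
  ∀ x y : V, (∀ f, ¬ (OnV M.toCyc f x ∧ OnV M.toCyc f y)) →
  (∀ s, Adj M.toCyc x s → ¬ Adj M.toCyc s y) →
  (∃ A B v, OnV M.toCyc A x ∧ OnV M.toCyc B y ∧ OnV M.toCyc A v ∧ OnV M.toCyc B v) →
  ∃ A B, OnV M.toCyc A x ∧ OnV M.toCyc B y ∧ ex M x y A B ∧ ex M y x B A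

/-- Hyp.: RTU, EXP (h_PCF, h_PCN: common face, common neighbour). `ex` gives a common vertex of `A` and `B`. -/
def FNU_stmt : Prop := ∀ (V F : Type) [Fintype V] [Fintype F] (M : PMap V F), -1 ≤ chi M.toCyc →
  ∀ x y : V, (∃ A B v, OnV M.toCyc A x ∧ OnV M.toCyc B y ∧ OnV M.toCyc A v ∧ OnV M.toCyc B v) →
  NRPath M.toCyc x y ∨
    ∃ A B g, OnV M.toCyc A x ∧ OnV M.toCyc B y ∧ (∃ z, OnV M.toCyc A z ∧ OnV M.toCyc B z) ∧
      Tri M x y A B g ∧
      (∃ s, Adj M.toCyc x s ∧ OnV M.toCyc A s ∧ ¬ ∃ B', OnV M.toCyc B' y ∧ OnV M.toCyc B' s) ∧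
      ∃ t, Adj M.toCyc y t ∧ OnV M.toCyc B t ∧ ¬ ∃ A', OnV M.toCyc A' x ∧ OnV M.toCyc A' t

end Pool.Agent.helper81.NU
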